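import Pool.Agent.H93RH.Ham4

open MvPolynomial

namespace Pool.Agent.Results.MP_34ac72_mp.NoQuadratic

open Pool.Agent.H93RH

/-- In the generalized standard form of a Hamiltonian (in particular, of a tau-symmetric) deformation
of the Riemann hierarchy with `a = 0`, every `a_λ` with `λ` of length two vanishes: every monomial
`u_λ` that occurs in `f` at order `ε^k`, `k ≥ 4`, has at least three factors. -/
theorem result (h : ℕ → EDP) (hh : IsHamDeformation h) (f : EDP) (hf : GenStd 0 f)
    (hfunc : SameFunctional (h 1) f) :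
    ∀ k, 4 ≤ k → ∀ s : ℕ →₀ ℕ, coeff s (PowerSeries.coeff k f) ≠ 0 → 3 ≤ s.sum fun _ m => m := by
  intro k hk s hs
  obtain ⟨⟨_, i, hi, _⟩, _⟩ := hf.cst k hk s hs
  have hs' : s = (s - Finsupp.single i 2) + Finsupp.single i 2 := by
    ext j
    rw [Finsupp.add_apply, Finsupp.tsub_apply]
    by_cases hj : j = i
    · subst hj; rw [Finsupp.single_eq_same]; omega
    · rw [Finsupp.single_eq_of_ne hj]; omega
  by_cases hz : s - Finsupp.single i 2 = 0
  · exfalso
    rw [hz, zero_add] at hs'
    have hw := (WH_iff _ _).1 (hf.deg k) s hs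
    rw [hs', phi_single] at hw
    have h1 := ham_quad h hh f hf hfunc (i + 1) (by omega)
    have e1 : i + 1 - 1 = i := by omega
    have e2 : 2 * (i + 1) = k := hw
    rw [e1, e2, ← hs'] at h1
    exact hs h1
  · obtain ⟨j, s'', hs''⟩ := decomp1 _ hz
    have h3 : lv s = lv s'' + 1 + 2 := by
      conv_lhs => rw [hs', hs'']
      rw [lv_add, lv_add, lv_single, lv_single]
    show 3 ≤ lv s
    omega

end Pool.Agent.Results.MP_34ac72_mp.NoQuadratic
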