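import Pool.Agent.H93RH.Ham3

open MvPolynomial

namespace Pool.Agent.Results.MP_34ac72_mp.OddPart

open Pool.Agent.H93RH

/-- In the generalized standard form of a Hamiltonian (in particular, of a tau-symmetric) deformation
of the Riemann hierarchy with `a ≠ 0`, every `a_λ` with `|λ|` odd vanishes. -/
theorem result (h : ℕ → EDP) (hh : IsHamDeformation h) (f : EDP) (a : ℂ) (hf : GenStd a f)
    (hfunc : SameFunctional (h 1) f) (ha : a ≠ 0) : ∀ k, Odd k → PowerSeries.coeff k f = 0 :=
  ham_even h hh f a hf hfunc ha

end Pool.Agent.Results.MP_34ac72_mp.OddPart
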